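import Pool.Agent.helper24.CG.Spec

set_option autoImplicit false

namespace Pool.Agent.helper24.CG

theorem N0B : N0B_stmt := by
  intro N m b q p hN hm hq hp
  unfold nn
  set D : ℝ := 2 * (p : ℝ) ^ 2 * m * (q : ℝ) ^ 2 with hD
  set A : ℝ := (q : ℝ) * Real.log N + (q : ℝ) ^ 2 * Real.log (1 + b) with hA
  set n : ℕ := ⌈(A + 1) * D⌉₊ with hn
  have hp' : (1 : ℝ) ≤ (p : ℝ) := by exact_mod_cast hp
  have hm' : (1 : ℝ) ≤ (m : ℝ) := by exact_mod_cast hm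
  have hq' : (1 : ℝ) ≤ (q : ℝ) := by exact_mod_cast hq
  have hN' : (1 : ℝ) ≤ (N : ℝ) := by exact_mod_cast hN
  have hp2 : (1 : ℝ) ≤ (p : ℝ) ^ 2 := one_le_pow₀ hp'
  have hq2 : (1 : ℝ) ≤ (q : ℝ) ^ 2 := one_le_pow₀ hq'
  have hD1 : 1 ≤ D := by
    rw [hD]
    have h1 : (1 : ℝ) ≤ (p : ℝ) ^ 2 * m := by nlinarith
    have h2 : (1 : ℝ) ≤ (p : ℝ) ^ 2 * m * (q : ℝ) ^ 2 := by nlinarith
    nlinarith
  have hD0 : 0 < D := lt_of_lt_of_le one_pos hD1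
  have hτ1 : D⁻¹ ≤ 1 := inv_le_one_of_one_le₀ hD1
  have h0 : 0 ≤ 1 - D⁻¹ := by linarith
  have h1 : 1 - D⁻¹ ≤ Real.exp (-D⁻¹) := by
    have := Real.add_one_le_exp (-D⁻¹)
    linarith
  have h2 : (1 - D⁻¹) ^ n ≤ Real.exp (-(A + 1)) := by
    calc (1 - D⁻¹) ^ n ≤ (Real.exp (-D⁻¹)) ^ n := pow_le_pow_left₀ h0 h1 n
      _ = Real.exp ((n : ℝ) * (-D⁻¹)) := by rw [← Real.exp_nat_mul]
      _ ≤ Real.exp (-(A + 1)) := by
        apply Real.exp_le_exp.mpr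
        have h3 : (A + 1) * D ≤ (n : ℝ) := Nat.le_ceil _
        have h4 : A + 1 ≤ (n : ℝ) * D⁻¹ := by
          rw [← div_eq_mul_inv, le_div_iff₀ hD0]
          exact h3
        linarith
  have h5 : (N : ℝ) ^ q * (1 + (b : ℝ)) ^ (q ^ 2) = Real.exp A := by
    rw [hA, Real.exp_add]
    congr 1
    · rw [Real.exp_nat_mul, Real.exp_log (by linarith)]
    · have hb : (0 : ℝ) < 1 + (b : ℝ) := by positivity
      have : (q : ℝ) ^ 2 * Real.log (1 + b) = ((q ^ 2 : ℕ) : ℝ) * Real.log (1 + b) := by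
        push_cast
        ring
      rw [this, Real.exp_nat_mul, Real.exp_log hb]
  rw [h5]
  calc (1 - D⁻¹) ^ n * Real.exp A ≤ Real.exp (-(A + 1)) * Real.exp A :=
        mul_le_mul_of_nonneg_right h2 (Real.exp_pos _).le
    _ = Real.exp (-1) := by rw [← Real.exp_add]; congr 1; ring
    _ < 1 := by
      rw [Real.exp_lt_one_iff]
      norm_num

end Pool.Agent.helper24.CG
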